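import Pool.Agent.Lib.MP_1fcdcf_an.Final

set_option autoImplicit false

open MeasureTheory Filter Topology
open scoped ENNReal

namespace Pool.Agent.Results.MP_1fcdcf_an.RieszSphere

/-- The unit sphere `S^d = {x ∈ ℝ^(d+1) : ‖x‖ = 1}`. -/
abbrev Sph (d : ℕ) := Metric.sphere (0 : EuclideanSpace ℝ (Fin (d + 1))) 1

/-- The Riesz `s`-kernel `‖x - y‖ ^ (-s)` with values in `[0, ∞]`; for `s > 0` it is `∞` at
`x = y`. -/
noncomputable def kernel (s : ℝ) {d : ℕ} (x y : Sph d) : ℝ≥0∞ :=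
  (ENNReal.ofReal ‖(x : EuclideanSpace ℝ (Fin (d + 1))) - y‖) ^ (-s)

/-- The Riesz `s`-energy of an arbitrary configuration `x_1, …, x_N` on `S^d` (points may coincide,
the energy is then `∞`), the sum over all ordered pairs of distinct indices. -/
noncomputable def energy (s : ℝ) {d N : ℕ} (x : Fin N → Sph d) : ℝ≥0∞ :=
  ∑ i, ∑ j ∈ Finset.univ.erase i, kernel s (x i) (x j)

/-- The continuous energy of a measure `σ` on `S^d`. -/
noncomputable def contEnergy (s : ℝ) {d : ℕ} (σ : Measure (Sph d)) : ℝ≥0∞ :=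
  ∫⁻ x, ∫⁻ y, kernel s x y ∂σ ∂σ

/-- The map of the sphere induced by a linear isometry of `ℝ^(d+1)`. -/
noncomputable def act {d : ℕ}
    (g : EuclideanSpace ℝ (Fin (d + 1)) ≃ₗᵢ[ℝ] EuclideanSpace ℝ (Fin (d + 1)))
    (x : Sph d) : Sph d :=
  ⟨g x, by simp⟩

/-- `σ` is a measure of total mass `1` on `S^d` invariant under all linear isometries of
`ℝ^(d+1)`. -/
structure IsUniform {d : ℕ} (σ : Measure (Sph d)) : Prop where
  total : σ Set.univ = 1
  invariant : ∀ g : EuclideanSpace ℝ (Fin (d + 1)) ≃ₗᵢ[ℝ] EuclideanSpace ℝ (Fin (d + 1)),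
    σ.map (act g) = σ

open Pool.Agent.Lib.MP_1fcdcf_an in
lemma kernel_eq (s : ℝ) {d : ℕ} (x y : Sph d) : kernel s x y = KK s x y := by
  rw [kernel, KK, edist_dist, Subtype.dist_eq, dist_eq_norm]

open Pool.Agent.Lib.MP_1fcdcf_an in
lemma energy_eq (s : ℝ) {d N : ℕ} (x : Fin N → Sph d) : energy s x = cE s x := by
  rw [energy, cE, pairSum]
  refine Finset.sum_congr rfl fun i _ => ?_
  rw [← Finset.add_sum_erase _ _ (Finset.mem_univ i), if_pos rfl, zero_add]
  refine Finset.sum_congr rfl fun j hj => ?_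
  rw [if_neg (Finset.ne_of_mem_erase hj).symm, kernel_eq]

lemma continuous_energy (s : ℝ) (d N : ℕ) : Continuous fun x : Fin N → Sph d => energy s x := by
  unfold energy kernel
  refine continuous_finsetSum _ fun i _ => continuous_finsetSum _ fun j _ => ?_
  refine ENNReal.continuous_rpow_const.comp (ENNReal.continuous_ofReal.comp ?_)
  fun_prop

open Pool.Agent.Lib.MP_1fcdcf_an in
lemma uniform_sig (d : ℕ) : IsUniform (sig d) where
  total := measure_univ
  invariant g := (measurePreserving_rot g).map_eq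

open Pool.Agent.Lib.MP_1fcdcf_an in
lemma uniform_eq {d : ℕ} {σ : Measure (Sph d)} (h : IsUniform σ) : σ = sig d := by
  have hp : IsProbabilityMeasure σ := ⟨h.total⟩
  ext A hA
  have hf : Measurable (A.indicator (1 : SS d → ℝ≥0∞)) := measurable_one.indicator hA
  rw [← lintegral_indicator_one hA, ← lintegral_indicator_one hA]
  symm
  calc ∫⁻ y, A.indicator 1 y ∂(sig d)
      = ∫⁻ _ : SS d, ∫⁻ y, A.indicator 1 y ∂(sig d) ∂σ := by simp
    _ = ∫⁻ x, ∫⁻ g, A.indicator (1 : SS d → ℝ≥0∞) (rot (isoG g) x) ∂(muG d) ∂σ := by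
        simp_rw [lintegral_rot _ hf]
    _ = ∫⁻ g, ∫⁻ x, A.indicator (1 : SS d → ℝ≥0∞) (rot (isoG g) x) ∂σ ∂(muG d) := by
        rw [lintegral_lintegral_swap]
        exact (hf.comp ((measurable_rot_isoG d).comp measurable_swap)).aemeasurable
    _ = ∫⁻ _ : GG d, ∫⁻ x, A.indicator (1 : SS d → ℝ≥0∞) x ∂σ ∂(muG d) := by
        refine lintegral_congr fun g => ?_
        have hm : MeasurePreserving (rot (isoG g)) σ σ := ⟨measurable_rot _, h.invariant _⟩
        exact hm.lintegral_comp hf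
    _ = _ := by simp

/-- Let `d ≥ 1` and `0 < s < d`. There is exactly one measure of total mass `1` on `S^d` invariant
under all linear isometries. Let `σ` be this measure. Then the continuous energy `I_s` of `σ` is finite; for every `N`
the energy, as a function on all `N`-point configurations with values in `[0, ∞]`, attains its
minimum, the minimum is finite and every minimiser has pairwise distinct points; the minimum is at
most `N² I_s`; and there is a real `C ≤ 0` such that `(min energy - N² I_s) / N ^ (1 + s / d)`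
tends to `C`. -/
theorem result (d : ℕ) (hd : 1 ≤ d) (s : ℝ) (hs : 0 < s) (hsd : s < d) :
    (∃! σ : Measure (Sph d), IsUniform σ) ∧
    ∀ σ : Measure (Sph d), IsUniform σ →
      contEnergy s σ ≠ ⊤ ∧
      ∃ minE : ℕ → ℝ,
        (∀ N : ℕ, 0 ≤ minE N ∧
          (∀ x : Fin N → Sph d, ENNReal.ofReal (minE N) ≤ energy s x) ∧
          (∃ x : Fin N → Sph d, energy s x = ENNReal.ofReal (minE N)) ∧
          (∀ x : Fin N → Sph d, energy s x = ENNReal.ofReal (minE N) → Function.Injective x) ∧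
          minE N ≤ (N : ℝ) ^ 2 * (contEnergy s σ).toReal) ∧
        ∃ C : ℝ, C ≤ 0 ∧
          Tendsto (fun N : ℕ => (minE N - (N : ℝ) ^ 2 * (contEnergy s σ).toReal) /
            (N : ℝ) ^ (1 + s / (d : ℝ))) atTop (𝓝 C) := by
  refine ⟨⟨Pool.Agent.Lib.MP_1fcdcf_an.sig d, uniform_sig d, fun σ h => uniform_eq h⟩, ?_⟩
  intro σ hσ
  obtain rfl := uniform_eq hσ
  have hI : contEnergy s (Pool.Agent.Lib.MP_1fcdcf_an.sig d) =
      Pool.Agent.Lib.MP_1fcdcf_an.WW s d := by
    unfold contEnergy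
    simp_rw [kernel_eq, Pool.Agent.Lib.MP_1fcdcf_an.lintegral_KK_sig]
    simp
  have hmin : ∀ N : ℕ, ∃ x : Fin N → Sph d, ∀ y : Fin N → Sph d, energy s x ≤ energy s y := by
    intro N
    have : Nonempty (Fin N → Sph d) := ⟨fun _ => Pool.Agent.Lib.MP_1fcdcf_an.e0 d⟩
    obtain ⟨x, -, hx⟩ := isCompact_univ.exists_isMinOn Set.univ_nonempty
      (continuous_energy s d N).continuousOn
    exact ⟨x, fun y => hx (Set.mem_univ y)⟩
  have hEN : ∀ N : ℕ, ∀ x : Fin N → Sph d, (∀ y : Fin N → Sph d, energy s x ≤ energy s y) →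
      energy s x = Pool.Agent.Lib.MP_1fcdcf_an.EN s d N := by
    intro N x hx
    refine le_antisymm (le_iInf fun y => ?_) ?_
    · rw [← energy_eq]; exact hx y
    · rw [energy_eq]; exact Pool.Agent.Lib.MP_1fcdcf_an.EN_le x
  have htop := Pool.Agent.Lib.MP_1fcdcf_an.EN_ne_top hs hd hsd
  have hof := Pool.Agent.Lib.MP_1fcdcf_an.EN_eq hs hd hsd
  obtain ⟨D, hD⟩ := Pool.Agent.Lib.MP_1fcdcf_an.tendsto_Fr hs hd hsd
  rw [hI]
  refine ⟨Pool.Agent.Lib.MP_1fcdcf_an.WW_ne_top hs hd hsd,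
    Pool.Agent.Lib.MP_1fcdcf_an.Er s d, fun N => ⟨Pool.Agent.Lib.MP_1fcdcf_an.Er_nonneg N, ?_, ?_,
      ?_, ?_⟩, -D, ?_, ?_⟩
  · intro x
    rw [← hof, energy_eq]
    exact Pool.Agent.Lib.MP_1fcdcf_an.EN_le x
  · obtain ⟨x, hx⟩ := hmin N
    exact ⟨x, by rw [← hof, hEN N x hx]⟩
  · intro x hx
    refine Pool.Agent.Lib.MP_1fcdcf_an.injective_of_cE hs (x := x) ?_
    rw [← energy_eq, hx]
    exact ENNReal.ofReal_ne_top
  · have := Pool.Agent.Lib.MP_1fcdcf_an.Fr_nonneg hs hd hsd N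
    rw [Pool.Agent.Lib.MP_1fcdcf_an.Fr, Pool.Agent.Lib.MP_1fcdcf_an.Wr] at this
    linarith
  · have : 0 ≤ D := ge_of_tendsto' hD fun N =>
      div_nonneg (Pool.Agent.Lib.MP_1fcdcf_an.Fr_nonneg hs hd hsd N) (by positivity)
    linarith
  · refine hD.neg.congr fun N => ?_
    rw [Pool.Agent.Lib.MP_1fcdcf_an.Fr, Pool.Agent.Lib.MP_1fcdcf_an.Wr]
    ring

end Pool.Agent.Results.MP_1fcdcf_an.RieszSphere
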